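import Mathlib
import Pool.Agent.Results.MP_e22981_co.ExplicitAllDimensions

set_option autoImplicit false

/-!
# Hypercubes of order `O(k (log k)^(3/2))` with lazy cop number larger than `k`
-/

namespace Pool.Agent.N448.Lazy

open LazyCops Filter

theorem cube_connected (m : ℕ) : (hypercube m).Connected := by
  have key : ∀ (s : ℕ) (x y : Fin m → Bool), hammingDist x y = s → (hypercube m).Reachable x y := by
    intro s
    induction s with
    | zero =>
      intro x y h
      rw [hammingDist_eq_zero] at h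
      rw [h]
    | succ s ih =>
      intro x y h
      have h1 : x ≠ y := by
        rintro rfl
        simp at h
      obtain ⟨i, hi⟩ := Function.ne_iff.1 h1
      set z := Function.update x i (y i) with hz
      have hxz : hammingDist x z = 1 := by
        unfold hammingDist
        rw [Finset.card_eq_one]
        refine ⟨i, ?_⟩
        ext j
        simp only [Finset.mem_filter, Finset.mem_univ, true_and, Finset.mem_singleton, hz]
        by_cases hj : j = i
        · subst hj; simp [hi]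
        · simp [hj]
      have hzy : hammingDist z y = s := by
        have h2 : (Finset.univ.filter fun j => x j ≠ y j) =
            insert i (Finset.univ.filter fun j => z j ≠ y j) := by
          ext j
          simp only [Finset.mem_filter, Finset.mem_univ, true_and, Finset.mem_insert, hz]
          by_cases hj : j = i
          · subst hj; simp [hi]
          · simp [hj]
        have h3 : i ∉ (Finset.univ.filter fun j => z j ≠ y j) := by simp [hz]
        unfold hammingDist at h ⊢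
        rw [h2, Finset.card_insert_of_notMem h3] at h
        omega
      have hadj : (hypercube m).Adj x z := hxz
      exact hadj.reachable.trans (ih z y hzy)
  exact ⟨fun x y => key _ x y rfl⟩

theorem exists_cube : ∃ C : ℝ, 0 < C ∧ ∃ k₀ : ℕ, ∀ k : ℕ, k₀ ≤ k → ∃ m : ℕ,
    (2 : ℝ) ^ m ≤ C * k * Real.log k ^ (3 / 2 : ℝ) ∧ 2 ^ m ≤ k ^ 2 ∧
      k < lazyCopNumber (hypercube m) := by
  obtain ⟨c, hc, hlow⟩ := Pool.Agent.Results.MP_e22981_co.ExplicitAllDimensions.lower_real
  set A : ℝ := 17 / c with hA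
  have hA0 : 0 < A := by positivity
  have t1 : Tendsto (fun k : ℕ => Real.log (k : ℝ)) atTop atTop :=
    Real.tendsto_log_atTop.comp tendsto_natCast_atTop_atTop
  -- `A (log k)^(3/2) ≤ k` for large `k`
  have t2 : ∀ᶠ k : ℕ in atTop, A * Real.log k ^ (3 / 2 : ℝ) ≤ k := by
    have h1 : (fun x : ℝ => Real.log x ^ (3 / 2 : ℝ)) =o[atTop] fun x : ℝ => x ^ (1 : ℝ) :=
      isLittleO_log_rpow_rpow_atTop (3 / 2) one_pos
    have h2 := h1.def (c := 1 / A) (by positivity)
    have h3 := tendsto_natCast_atTop_atTop (R := ℝ) |>.eventually h2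
    filter_upwards [h3, eventually_ge_atTop 1] with k hk hk1
    have hk1' : (1 : ℝ) ≤ k := by exact_mod_cast hk1
    have hl : 0 ≤ Real.log k := Real.log_nonneg hk1'
    rw [Real.rpow_one, Real.norm_of_nonneg (by positivity), Real.norm_of_nonneg (by positivity)] at hk
    calc A * Real.log k ^ (3 / 2 : ℝ) ≤ A * (1 / A * k) := by gcongr
      _ = k := by field_simp
  have t3 : ∀ᶠ k : ℕ in atTop, (max 4 (1 / A) : ℝ) ≤ Real.log k := t1.eventually_ge_atTop _
  obtain ⟨k₀, hk₀⟩ := eventually_atTop.1 (t2.and (t3.and (eventually_ge_atTop 3)))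
  refine ⟨A, hA0, k₀, fun k hk => ?_⟩
  obtain ⟨h2, h3, h4⟩ := hk₀ k hk
  have hk3 : (3 : ℝ) ≤ k := by exact_mod_cast h4
  have hk0 : (0 : ℝ) < k := by linarith
  have hL4 : 4 ≤ Real.log k := (le_max_left _ _).trans h3
  have hLA : 1 / A ≤ Real.log k := (le_max_right _ _).trans h3
  set L := Real.log k with hL
  have hL0 : 0 < L := by linarith
  set K : ℝ := A * k * L ^ (3 / 2 : ℝ) with hK
  have hLp : L ≤ L ^ (3 / 2 : ℝ) := by
    calc L = L ^ (1 : ℝ) := (Real.rpow_one _).symm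
      _ ≤ L ^ (3 / 2 : ℝ) := Real.rpow_le_rpow_of_exponent_le (by linarith) (by norm_num)
  have hKk : (k : ℝ) ≤ K := by
    have : 1 ≤ A * L ^ (3 / 2 : ℝ) := by
      calc (1 : ℝ) = A * (1 / A) := by field_simp
        _ ≤ A * L ^ (3 / 2 : ℝ) := by
          apply mul_le_mul_of_nonneg_left _ hA0.le
          exact hLA.trans hLp
    calc (k : ℝ) = k * 1 := (mul_one _).symm
      _ ≤ k * (A * L ^ (3 / 2 : ℝ)) := by gcongr
      _ = K := by rw [hK]; ring
  have hK2 : K ≤ k ^ 2 := by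
    calc K = k * (A * L ^ (3 / 2 : ℝ)) := by rw [hK]; ring
      _ ≤ k * k := by gcongr
      _ = k ^ 2 := by ring
  have hK1 : 1 ≤ K := by linarith
  set m := Nat.log 2 ⌊K⌋₊ with hm
  have hfl : ⌊K⌋₊ ≠ 0 := by
    rw [← Nat.pos_iff_ne_zero, Nat.floor_pos]
    exact hK1
  have hm1 : 2 ^ m ≤ ⌊K⌋₊ := Nat.pow_log_le_self 2 hfl
  have hm2 : ⌊K⌋₊ < 2 ^ (m + 1) := Nat.lt_pow_succ_log_self (by norm_num) _
  have hm1' : (2 : ℝ) ^ m ≤ K := by
    have h5 : ((2 ^ m : ℕ) : ℝ) ≤ (⌊K⌋₊ : ℝ) := by exact_mod_cast hm1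
    push_cast at h5
    exact h5.trans (Nat.floor_le (by linarith))
  have hm2' : K < 2 * 2 ^ m := by
    have h5 := (Nat.floor_lt (by linarith : (0 : ℝ) ≤ K)).1 hm2
    push_cast at h5
    rw [pow_succ] at h5
    linarith
  have hmpos : 1 ≤ m := by
    by_contra h
    have h0 : m = 0 := by omega
    rw [h0] at hm2'
    norm_num at hm2'
    linarith
  -- `m ≤ 4 L`
  have hm4 : (m : ℝ) ≤ 4 * L := by
    have h5 : (2 : ℝ) ^ m ≤ k ^ 2 := hm1'.trans hK2
    have h6 : Real.log ((2 : ℝ) ^ m) ≤ Real.log ((k : ℝ) ^ 2) := Real.log_le_log (by positivity) h5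
    rw [Real.log_pow, Real.log_pow] at h6
    have h7 := Real.log_two_gt_d9
    push_cast at h6
    nlinarith
  refine ⟨m, hm1', ?_, ?_⟩
  · have h5 : ((2 ^ m : ℕ) : ℝ) ≤ ((k ^ 2 : ℕ) : ℝ) := by
      push_cast
      exact hm1'.trans hK2
    exact_mod_cast h5
  · have h5 := hlow m hmpos
    have hm0 : (0 : ℝ) < m := by exact_mod_cast hmpos
    have h6 : (m : ℝ) ^ (3 / 2 : ℝ) ≤ 8 * L ^ (3 / 2 : ℝ) := by
      calc (m : ℝ) ^ (3 / 2 : ℝ) ≤ (4 * L) ^ (3 / 2 : ℝ) :=
            Real.rpow_le_rpow hm0.le hm4 (by norm_num)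
        _ = 4 ^ (3 / 2 : ℝ) * L ^ (3 / 2 : ℝ) := Real.mul_rpow (by norm_num) hL0.le
        _ = 8 * L ^ (3 / 2 : ℝ) := by
          congr 1
          rw [show (4 : ℝ) = 2 ^ (2 : ℝ) by norm_num, ← Real.rpow_mul (by norm_num)]
          norm_num
    have hmp : 0 < (m : ℝ) ^ (3 / 2 : ℝ) := by positivity
    have hLpos : 0 < L ^ (3 / 2 : ℝ) := by positivity
    have h7 : (k : ℝ) < c * (2 ^ m / (m : ℝ) ^ (3 / 2 : ℝ)) := by
      rw [← mul_div_assoc, lt_div_iff₀ hmp]
      have h8 : K = A * k * L ^ (3 / 2 : ℝ) := hK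
      have h9 : c * K = 17 * k * L ^ (3 / 2 : ℝ) := by
        rw [h8, hA]; field_simp
      have h10 : 17 * k * L ^ (3 / 2 : ℝ) < 2 * (c * 2 ^ m) := by
        rw [← h9]
        nlinarith
      have h11 : (k : ℝ) * (m : ℝ) ^ (3 / 2 : ℝ) ≤ k * (8 * L ^ (3 / 2 : ℝ)) := by gcongr
      have h12 : 0 < (k : ℝ) * L ^ (3 / 2 : ℝ) := by positivity
      nlinarith
    have h8 : (k : ℝ) < (lazyCopNumber (hypercube m) : ℝ) := h7.trans_le h5
    exact_mod_cast h8

end Pool.Agent.N448.Lazy
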